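import Pool.Agent.Helper89.GP.GoalsA

/-!
# GP: the mass of the chamber of the identity is one
-/

namespace Pool.Agent.Helper12.GP

open Finset MeasureTheory Pool.Agent.Helper89.GP

noncomputable section

theorem measurableSet_Ch {n : ℕ} (σ : Equiv.Perm (Fin n)) : MeasurableSet (Ch σ) := by
  unfold Ch
  rw [Set.setOf_and]
  refine MeasurableSet.inter ?_ ?_
  · rw [Set.setOf_forall]
    exact MeasurableSet.iInter fun a =>
      measurableSet_lt measurable_const (measurable_pi_apply a)
  · rw [Set.setOf_forall]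
    refine MeasurableSet.iInter fun a => ?_
    rw [Set.setOf_forall]
    refine MeasurableSet.iInter fun b => ?_
    rw [Set.setOf_forall]
    exact MeasurableSet.iInter fun _ =>
      measurableSet_lt (measurable_pi_apply a) (measurable_pi_apply b)

theorem iSup_cons {n : ℕ} {r : ℝ} {y : Fin n → ℝ} (hr : 0 < r) (hy : ∀ i, 0 < y i) :
    (⨆ a, (Fin.cons r fun i => r + y i : Fin (n + 1) → ℝ) a) = r + ⨆ a, y a := by
  have hb : BddAbove (Set.range (Fin.cons r fun i => r + y i : Fin (n + 1) → ℝ)) :=
    Set.Finite.bddAbove (Set.finite_range _)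
  have hb' : BddAbove (Set.range y) := Set.Finite.bddAbove (Set.finite_range _)
  have h0 : r ≤ ⨆ a, (Fin.cons r fun i => r + y i : Fin (n + 1) → ℝ) a := by
    have := le_ciSup hb 0
    simpa using this
  apply le_antisymm
  · refine ciSup_le fun a => ?_
    refine Fin.cases ?_ (fun i => ?_) a
    · rw [Fin.cons_zero]
      have : 0 ≤ ⨆ a, y a := Real.iSup_nonneg fun i => (hy i).le
      linarith
    · rw [Fin.cons_succ]
      have := le_ciSup hb' i
      linarith
  · have h1 : (⨆ a, y a) ≤ (⨆ a, (Fin.cons r fun i => r + y i : Fin (n + 1) → ℝ) a) - r := by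
      refine Real.iSup_le (fun i => ?_) (by linarith)
      have := le_ciSup hb i.succ
      rw [Fin.cons_succ] at this
      linarith
    linarith

theorem lintegral_exp_neg : ∫⁻ r in Set.Ioi (0 : ℝ), ENNReal.ofReal (Real.exp (-r)) = 1 := by
  rw [← ofReal_integral_eq_lintegral_ofReal, integral_exp_neg_Ioi_zero, ENNReal.ofReal_one]
  · exact integrableOn_exp_neg_Ioi 0
  · exact Filter.Eventually.of_forall fun r => (Real.exp_pos _).le

theorem mst (peel : PeelStmt) : MstStmt := by
  intro n
  induction n with
  | zero =>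
    have h : Ch (1 : Equiv.Perm (Fin 0)) = Set.univ := by
      unfold Ch
      ext x
      simp only [Set.mem_setOf_eq, Set.mem_univ, iff_true]
      exact ⟨fun a => a.elim0, fun a => a.elim0⟩
    rw [h, Measure.restrict_univ, lintegral_unique]
    have h1 : (volume : Measure (Fin 0 → ℝ)) Set.univ = 1 := by
      rw [volume_pi, Measure.pi_empty_univ]
    rw [h1, Real.iSup_of_isEmpty]
    simp
  | succ n ih =>
    have hm : Measurable fun x : Fin (n + 1) → ℝ => ENNReal.ofReal (Real.exp (-⨆ a, x a)) := by
      refine ENNReal.measurable_ofReal.comp (Real.measurable_exp.comp (Measurable.neg ?_))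
      exact Measurable.iSup fun i => measurable_pi_apply i
    rw [peel n _ hm]
    have h1 : ∀ r ∈ Set.Ioi (0 : ℝ), ∫⁻ y in Ch (1 : Equiv.Perm (Fin n)),
        ENNReal.ofReal (Real.exp (-⨆ a, (Fin.cons r fun i => r + y i : Fin (n + 1) → ℝ) a)) =
        ENNReal.ofReal (Real.exp (-r)) := by
      intro r hr
      have h2 : ∫⁻ y in Ch (1 : Equiv.Perm (Fin n)),
          ENNReal.ofReal (Real.exp (-⨆ a, (Fin.cons r fun i => r + y i : Fin (n + 1) → ℝ) a)) =
          ∫⁻ y in Ch (1 : Equiv.Perm (Fin n)), ENNReal.ofReal (Real.exp (-r)) *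
            ENNReal.ofReal (Real.exp (-⨆ a, y a)) := by
        refine setLIntegral_congr_fun (measurableSet_Ch _) fun y hy => ?_
        change ENNReal.ofReal (Real.exp
          (-⨆ a, (Fin.cons r fun i => r + y i : Fin (n + 1) → ℝ) a)) = _
        rw [iSup_cons hr hy.1, neg_add, Real.exp_add, ENNReal.ofReal_mul (Real.exp_pos _).le]
      rw [h2, lintegral_const_mul', ih, mul_one]
      exact ENNReal.ofReal_ne_top
    rw [setLIntegral_congr_fun measurableSet_Ioi h1]
    exact lintegral_exp_neg

end

end Pool.Agent.Helper12.GP
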